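import Mathlib
import Pool.Agent.Y214.HB.Stm

/-! Project HB (helper214): forms mod `p` with a smooth zero at a given point. -/

set_option autoImplicit false

namespace Pool.Agent.Y684.HB

open Pool.Agent.Y214.HB MvPolynomial

/-- the form with given coefficients -/
noncomputable def frm {n d p : ℕ} {T : Type} [Fintype T]
    (u : T ≃ {u : Fin (n + 1) →₀ ℕ // ∑ i, u i = d}) : (T → ZMod p) →+ MvPolynomial (Fin (n + 1)) (ZMod p) where
  toFun := fun c => ∑ t, MvPolynomial.monomial (u t : Fin (n + 1) →₀ ℕ) (c t)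
  map_zero' := by simp
  map_add' := by
    intro c c'
    simp only [Pi.add_apply, map_add, Finset.sum_add_distrib]

lemma frm_single {n d p : ℕ} {T : Type} [Fintype T] [DecidableEq T]
    (u : T ≃ {u : Fin (n + 1) →₀ ℕ // ∑ i, u i = d}) (t : T) (x : ZMod p) :
    frm u (Pi.single t x) = MvPolynomial.monomial (u t : Fin (n + 1) →₀ ℕ) x := by
  show ∑ s, MvPolynomial.monomial (u s : Fin (n + 1) →₀ ℕ) ((Pi.single t x : T → ZMod p) s) = _
  rw [Finset.sum_eq_single t]
  · rw [Pi.single_eq_same]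
  · intro s _ hs
    rw [Pi.single_eq_of_ne hs, map_zero]
  · intro h
    exact absurd (Finset.mem_univ t) h

theorem t_ALG : S_ALG := by
  intro n d p _ hn hd T _ u a ha
  classical
  obtain ⟨i, hi⟩ : ∃ i, a i ≠ 0 := by
    by_contra h
    push Not at h
    exact ha (funext h)
  obtain ⟨j, hj⟩ : ∃ j : Fin (n + 1), j ≠ i := by
    have : Nontrivial (Fin (n + 1)) := Fin.nontrivial_iff_two_le.2 (by omega)
    exact exists_ne i
  let φ : (T → ZMod p) →+ ZMod p := ((MvPolynomial.eval a).toAddMonoidHom).comp (frm u)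
  let ψ : (T → ZMod p) →+ ZMod p :=
    ((MvPolynomial.eval a).toAddMonoidHom).comp (((MvPolynomial.pderiv (R := ZMod p) j).toLinearMap.toAddMonoidHom).comp (frm u))
  have hφ : ∀ c, φ c = MvPolynomial.eval a (frm u c) := fun c => rfl
  have hψ : ∀ c, ψ c = MvPolynomial.eval a (MvPolynomial.pderiv j (frm u c)) := fun c => rfl
  let L : (T → ZMod p) →+ ZMod p × ZMod p := φ.prod ψ
  have hL : ∀ c, L c = (φ c, ψ c) := fun c => rfl
  -- the two monomials
  have s1 : ∑ k, (Finsupp.single i d : Fin (n + 1) →₀ ℕ) k = d := by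
    simp [Finsupp.single_apply]
  have s2 : ∑ k, (Finsupp.single i (d - 1) + Finsupp.single j 1 : Fin (n + 1) →₀ ℕ) k = d := by
    simp only [Finsupp.add_apply, Finset.sum_add_distrib, Finsupp.single_apply]
    simp
    omega
  set t1 : T := u.symm ⟨_, s1⟩ with ht1
  set t2 : T := u.symm ⟨_, s2⟩ with ht2
  have u1 : (u t1 : Fin (n + 1) →₀ ℕ) = Finsupp.single i d := by rw [ht1, Equiv.apply_symm_apply]
  have u2 : (u t2 : Fin (n + 1) →₀ ℕ) = Finsupp.single i (d - 1) + Finsupp.single j 1 := by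
    rw [ht2, Equiv.apply_symm_apply]
  have ps : ∀ (k : Fin (n + 1)) (m : ℕ), ((Finsupp.single k m).prod fun n e => a n ^ e) = a k ^ m :=
    fun k m => Finsupp.prod_single_index (h := fun n e => a n ^ e) (pow_zero _)
  have p1 : ∀ x, φ (Pi.single t1 x) = x * a i ^ d := by
    intro x
    rw [hφ, frm_single, u1, MvPolynomial.eval_monomial, ps]
  have p2 : ∀ x, φ (Pi.single t2 x) = x * (a i ^ (d - 1) * a j) := by
    intro x
    rw [hφ, frm_single, u2, MvPolynomial.eval_monomial,
      Finsupp.prod_add_index' (h := fun n e => a n ^ e) (fun _ => pow_zero _) (fun _ _ _ => pow_add _ _ _),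
      ps, ps, pow_one]
  have q1 : ∀ x, ψ (Pi.single t1 x) = 0 := by
    intro x
    rw [hψ, frm_single, u1, MvPolynomial.pderiv_monomial, Finsupp.single_eq_of_ne hj]
    simp
  have q2 : ∀ x, ψ (Pi.single t2 x) = x * a i ^ (d - 1) := by
    intro x
    rw [hψ, frm_single, u2, MvPolynomial.pderiv_monomial, Finsupp.add_apply,
      Finsupp.single_eq_of_ne hj, Finsupp.single_eq_same, add_tsub_cancel_right,
      MvPolynomial.eval_monomial, ps]
    simp
  have surj : ∀ b : ZMod p × ZMod p, b ∈ Set.range L := by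
    rintro ⟨x, y⟩
    have e1 : a i ^ (d - 1) ≠ 0 := pow_ne_zero _ hi
    have e2 : a i ^ d ≠ 0 := pow_ne_zero _ hi
    refine ⟨Pi.single t1 ((x - y * a j) / a i ^ d) + Pi.single t2 (y / a i ^ (d - 1)), ?_⟩
    rw [map_add, hL, hL, p1, p2, q1, q2]
    simp only [Prod.mk_add_mk]
    apply Prod.ext
    · show (x - y * a j) / a i ^ d * a i ^ d + y / a i ^ (d - 1) * (a i ^ (d - 1) * a j) = x
      rw [div_mul_cancel₀ _ e2, ← mul_assoc, div_mul_cancel₀ _ e1]
      ring
    · show 0 + y / a i ^ (d - 1) * a i ^ (d - 1) = y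
      rw [div_mul_cancel₀ _ e1, zero_add]
  -- fibres
  set κ : ℕ := (Finset.univ.filter fun c : T → ZMod p => L c = 0).card with hκ
  have fib : ∀ b : ZMod p × ZMod p, (Finset.univ.filter fun c : T → ZMod p => L c = b).card = κ := by
    intro b
    exact AddMonoidHom.card_fiber_eq_of_mem_range L (surj b) (surj 0)
  have tot : p ^ Fintype.card T = p ^ 2 * κ := by
    have h1 : (Finset.univ : Finset (T → ZMod p)).card =
        ∑ b ∈ (Finset.univ : Finset (ZMod p × ZMod p)),
          (Finset.univ.filter fun c : T → ZMod p => L c = b).card :=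
      Finset.card_eq_sum_card_fiberwise (fun c _ => Finset.mem_coe.2 (Finset.mem_univ _))
    rw [Finset.sum_congr rfl (fun b _ => fib b), Finset.sum_const, Finset.card_univ,
      Finset.card_univ, Fintype.card_prod, ZMod.card, Fintype.card_fun, ZMod.card, smul_eq_mul] at h1
    rw [h1]
    ring
  set Gd : Finset (ZMod p × ZMod p) := {0} ×ˢ (Finset.univ.erase 0) with hGd
  have cGd : Gd.card = p - 1 := by
    rw [hGd, Finset.card_product, Finset.card_singleton, one_mul, Finset.card_erase_of_mem (Finset.mem_univ _),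
      Finset.card_univ, ZMod.card]
  set GG : Finset (T → ZMod p) := Finset.univ.filter fun c => L c ∈ Gd with hGG
  have cGG : GG.card = (p - 1) * κ := by
    have h1 : GG.card = ∑ b ∈ Gd, (GG.filter fun c => L c = b).card :=
      Finset.card_eq_sum_card_fiberwise (fun c hc => (Finset.mem_filter.1 hc).2)
    have h2 : ∀ b ∈ Gd, (GG.filter fun c => L c = b).card = κ := by
      intro b hb
      rw [← fib b]
      congr 1
      ext c
      simp only [hGG, Finset.mem_filter, Finset.mem_univ, true_and]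
      constructor
      · exact fun h => h.2
      · exact fun h => ⟨h ▸ hb, h⟩
    rw [h1, Finset.sum_congr rfl h2, Finset.sum_const, cGd, smul_eq_mul]
  have sub : {c : T → ZMod p | ¬ (MvPolynomial.eval a (∑ t, MvPolynomial.monomial (u t : Fin (n + 1) →₀ ℕ)
        (c t)) = 0 ∧ ∃ j, MvPolynomial.eval a (MvPolynomial.pderiv j
          (∑ t, MvPolynomial.monomial (u t : Fin (n + 1) →₀ ℕ) (c t))) ≠ 0)} ⊆
      ((GGᶜ : Finset (T → ZMod p)) : Set (T → ZMod p)) := by
    intro c hc
    rw [Finset.mem_coe, Finset.mem_compl]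
    intro hcG
    apply hc
    have h3 : L c ∈ Gd := (Finset.mem_filter.1 hcG).2
    rw [hGd, Finset.mem_product, hL] at h3
    obtain ⟨h4, h5⟩ := h3
    refine ⟨Finset.mem_singleton.1 h4, j, ?_⟩
    exact Finset.ne_of_mem_erase h5
  have hle := Set.ncard_le_ncard sub (Finset.finite_toSet _)
  rw [Set.ncard_coe_finset, Finset.card_compl, Fintype.card_fun, ZMod.card, cGG] at hle
  have hp1 : 1 ≤ p := (Fact.out : p.Prime).one_lt.le
  have hpos : (0 : ℝ) < p := by exact_mod_cast hp1
  have hle2 : (p - 1) * κ ≤ p ^ Fintype.card T := by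
    rw [← cGG]
    have h6 := Finset.card_le_univ GG
    rw [Fintype.card_fun, ZMod.card] at h6
    exact h6
  have htot : ((p : ℝ) ^ Fintype.card T) = (p : ℝ) ^ 2 * κ := by exact_mod_cast tot
  calc _ ≤ ((p ^ Fintype.card T - (p - 1) * κ : ℕ) : ℝ) := by exact_mod_cast hle
    _ = (p : ℝ) ^ Fintype.card T - ((p : ℝ) - 1) * κ := by
        rw [Nat.cast_sub hle2, Nat.cast_mul, Nat.cast_sub hp1]
        push_cast
        ring
    _ = (1 - ((p : ℝ) - 1) / (p : ℝ) ^ 2) * (p : ℝ) ^ Fintype.card T := by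
        rw [htot]
        field_simp

end Pool.Agent.Y684.HB
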